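import Pool.Agent.Helper5.SM.Marg

/-!
# PS2: the sum over the pairs of the conflict probabilities

For fixed `x` put `φ_i(z) = f_{Si}(update x i z)`, so that `∫ φ_i = f_S(x) = F`. The spectral inequality is used for
`Φ = ∑ φ_i 1[φ_i ≤ K F] ≤ r K F`, `r = k - |S|`.
-/

set_option autoImplicit false

open MeasureTheory Set Filter Topology

namespace Pool.Agent.Helper63.SM

variable {X : Type*} [MeasurableSpace X] {μ : Measure X} [IsProbabilityMeasure μ]
  {R : X → X → Prop} {k : ℕ} {f : (Fin k → X) → ℝ}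

/-- bounded, measurable, nonnegative -/
structure Nb80 {Y : Type*} [MeasurableSpace Y] (b : Y → ℝ) : Prop where
  m : Measurable b
  n : ∀ z, 0 ≤ b z
  c : ∃ C : ℝ, ∀ z, b z ≤ C

theorem Nb80.int {Y : Type*} [MeasurableSpace Y] {ν : Measure Y} [IsProbabilityMeasure ν] {b : Y → ℝ} (h : Nb80 b) :
    Integrable b ν := by
  obtain ⟨C, hC⟩ := h.c
  exact int_bdd h.m (C := C) fun x => by rw [abs_of_nonneg (h.n x)]; exact hC x

theorem Nb80.mul {Y : Type*} [MeasurableSpace Y] {a b : Y → ℝ} (ha : Nb80 a) (hb : Nb80 b) : Nb80 fun z => a z * b z := by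
  obtain ⟨C, hC⟩ := ha.c
  obtain ⟨D, hD⟩ := hb.c
  refine ⟨ha.m.mul hb.m, fun z => mul_nonneg (ha.n z) (hb.n z), C * D, fun z => ?_⟩
  exact mul_le_mul (hC z) (hD z) (hb.n z) ((ha.n z).trans (hC z))

theorem Nb80.sum {Y : Type*} [MeasurableSpace Y] {ι : Type*} {J : Finset ι} {a : ι → Y → ℝ} (ha : ∀ i ∈ J, Nb80 (a i)) :
    Nb80 fun z => ∑ i ∈ J, a i z := by
  classical
  refine ⟨Finset.measurable_sum _ fun i hi => (ha i hi).m, fun z => Finset.sum_nonneg fun i hi => (ha i hi).n z, ?_⟩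
  have h1 : ∀ i : ι, ∃ C : ℝ, i ∈ J → ∀ z, a i z ≤ C := by
    intro i
    by_cases hi : i ∈ J
    · obtain ⟨C, hC⟩ := (ha i hi).c
      exact ⟨C, fun _ => hC⟩
    · exact ⟨0, fun h => absurd h hi⟩
  choose C hC using h1
  exact ⟨∑ i ∈ J, C i, fun z => Finset.sum_le_sum fun i hi => hC i hi z⟩

theorem Nb80.ind {Y : Type*} [MeasurableSpace Y] {a : Y → ℝ} (ha : Nb80 a) {A : Set Y} (hA : MeasurableSet A) :
    Nb80 (A.indicator a) := by
  obtain ⟨C, hC⟩ := ha.c
  refine ⟨ha.m.indicator hA, fun z => indicator_nonneg (fun z _ => ha.n z) z, C, fun z => ?_⟩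
  exact (indicator_le_self' (fun z _ => ha.n z) z).trans (hC z)

/-- `K b` -/
noncomputable def op80 (μ : Measure X) (R : X → X → Prop) (b : X → ℝ) (z : X) : ℝ := ∫ w in {w | R z w}, b w ∂μ

/-- `⟨a, K b⟩` -/
noncomputable def ip80 (μ : Measure X) (R : X → X → Prop) (a b : X → ℝ) : ℝ := ∫ z, a z * op80 μ R b z ∂μ

theorem Rz80 (hR : MeasurableSet {p : X × X | R p.1 p.2}) (z : X) : MeasurableSet {w | R z w} :=
  hR.preimage measurable_prodMk_left

theorem op80_nb (hR : MeasurableSet {p : X × X | R p.1 p.2}) {b : X → ℝ} (hb : Nb80 b) : Nb80 (op80 μ R b) ∧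
    ∀ z, op80 μ R b z ≤ ∫ w, b w ∂μ := by
  have h1 : ∀ z, op80 μ R b z ≤ ∫ w, b w ∂μ := fun z =>
    setIntegral_le_integral hb.int (Eventually.of_forall hb.n)
  refine ⟨⟨?_, fun z => setIntegral_nonneg (Rz80 hR z) fun w _ => hb.n w, _, h1⟩, h1⟩
  have h2 : StronglyMeasurable fun p : X × X => {p : X × X | R p.1 p.2}.indicator (fun _ => (1 : ℝ)) p * b p.2 :=
    (((measurable_const.indicator hR).mul (hb.m.comp measurable_snd))).stronglyMeasurable
  have h3 := h2.integral_prod_right' (ν := μ)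
  have h4 : op80 μ R b = fun z => ∫ w, {p : X × X | R p.1 p.2}.indicator (fun _ => (1 : ℝ)) (z, w) * b w ∂μ := by
    funext z
    unfold op80
    rw [← integral_indicator (Rz80 hR z)]
    congr 1
    funext w
    by_cases hw : R z w
    · rw [Set.indicator_of_mem (show w ∈ {w | R z w} from hw),
        Set.indicator_of_mem (show (z, w) ∈ {p : X × X | R p.1 p.2} from hw), one_mul]
    · rw [Set.indicator_of_notMem (show w ∉ {w | R z w} from hw),
        Set.indicator_of_notMem (show (z, w) ∉ {p : X × X | R p.1 p.2} from hw), zero_mul]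
  rw [h4]
  exact h3.measurable

theorem ip80_le (hR : MeasurableSet {p : X × X | R p.1 p.2}) {a b : X → ℝ} (ha : Nb80 a) (hb : Nb80 b) :
    0 ≤ ip80 μ R a b ∧ ip80 μ R a b ≤ (∫ z, a z ∂μ) * ∫ w, b w ∂μ := by
  obtain ⟨h1, h2⟩ := op80_nb (μ := μ) hR hb
  refine ⟨integral_nonneg fun z => mul_nonneg (ha.n z) (h1.n z), ?_⟩
  unfold ip80
  rw [← integral_mul_const]
  exact integral_mono (ha.mul h1).int (ha.int.mul_const _) fun z => mul_le_mul_of_nonneg_left (h2 z) (ha.n z)

theorem ip80_mono (hR : MeasurableSet {p : X × X | R p.1 p.2}) {a b a' b' : X → ℝ} (ha : Nb80 a) (hb : Nb80 b)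
    (ha' : Nb80 a') (hb' : Nb80 b') (h1 : ∀ z, a z ≤ a' z) (h2 : ∀ z, b z ≤ b' z) :
    ip80 μ R a b ≤ ip80 μ R a' b' := by
  have g1 := (op80_nb (μ := μ) hR hb).1
  have g2 := (op80_nb (μ := μ) hR hb').1
  refine integral_mono (ha.mul g1).int (ha'.mul g2).int fun z => ?_
  refine mul_le_mul (h1 z) ?_ (g1.n z) (ha'.n z)
  exact setIntegral_mono hb.int.integrableOn hb'.int.integrableOn fun w => h2 w

theorem ip80_sum (hR : MeasurableSet {p : X × X | R p.1 p.2}) {ι : Type*} (J : Finset ι) {a : ι → X → ℝ}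
    (ha : ∀ i ∈ J, Nb80 (a i)) :
    ip80 μ R (fun z => ∑ i ∈ J, a i z) (fun z => ∑ i ∈ J, a i z) = ∑ i ∈ J, ∑ j ∈ J, ip80 μ R (a i) (a j) := by
  have h1 : ∀ z, op80 μ R (fun z => ∑ j ∈ J, a j z) z = ∑ j ∈ J, op80 μ R (a j) z := by
    intro z
    unfold op80
    exact integral_finsetSum J fun j hj => (ha j hj).int.integrableOn
  unfold ip80
  simp_rw [h1, Finset.sum_mul, Finset.mul_sum]
  rw [integral_finsetSum J fun i hi => integrable_finsetSum J fun j hj => ((ha i hi).mul (op80_nb hR (ha j hj)).1).int]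
  refine Finset.sum_congr rfl fun i hi => ?_
  exact integral_finsetSum J fun j hj => ((ha i hi).mul (op80_nb hR (ha j hj)).1).int

/-- the inequality for fixed `x` -/
theorem point80 (hR : MeasurableSet {p : X × X | R p.1 p.2}) {p ε : ℝ} (hp : 0 ≤ p) (hε : 0 ≤ ε) (hspec : Spec μ R p ε)
    {K F : ℝ} (hK : 0 < K) (hF : 0 ≤ F) {ι : Type*} [DecidableEq ι] (J : Finset ι) {φ : ι → X → ℝ}
    (hφ : ∀ i ∈ J, Nb80 (φ i)) (hi : ∀ i ∈ J, ∫ z, φ i z ∂μ = F) :
    p * (J.card : ℝ) ^ 2 * (1 - ε * K) * F ^ 2 -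
        2 * p * J.card * F * ∑ i ∈ J, (∫ z in {z | K * F < φ i z}, φ i z ∂μ) - J.card * F ^ 2 ≤
      ∑ i ∈ J, ∑ j ∈ J.erase i, ip80 μ R (φ i) (φ j) := by
  set r : ℝ := (J.card : ℝ) with hr
  have hr0 : 0 ≤ r := Nat.cast_nonneg _
  have hA : ∀ i ∈ J, MeasurableSet {z | K * F < φ i z} := fun i hi => measurableSet_lt measurable_const (hφ i hi).m
  set B : ι → ℝ := fun i => ∫ z in {z | K * F < φ i z}, φ i z ∂μ with hB
  set ψ : ι → X → ℝ := fun i => {z | K * F < φ i z}ᶜ.indicator (φ i) with hψ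
  have hψn : ∀ i ∈ J, Nb80 (ψ i) := fun i hi => (hφ i hi).ind (hA i hi).compl
  have hψi : ∀ i ∈ J, ∫ z, ψ i z ∂μ = F - B i := by
    intro i hij
    have h1 := integral_add_compl (hA i hij) (hφ i hij).int (μ := μ)
    rw [hi i hij] at h1
    rw [hψ]
    simp only
    rw [integral_indicator (hA i hij).compl]
    simp only [hB]
    linarith
  have hψK : ∀ i ∈ J, ∀ z, ψ i z ≤ K * F := by
    intro i hij z
    simp only [hψ]
    by_cases hz : z ∈ {z | K * F < φ i z}ᶜ
    · rw [indicator_of_mem hz]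
      exact not_lt.1 hz
    · rw [indicator_of_notMem hz]
      positivity
  have hψφ : ∀ i ∈ J, ∀ z, ψ i z ≤ φ i z := fun i hij z => indicator_le_self' (fun z _ => (hφ i hij).n z) z
  set Φ : X → ℝ := fun z => ∑ i ∈ J, ψ i z with hΦ
  have hΦn : Nb80 Φ := Nb80.sum hψn
  have hΦi : ∫ z, Φ z ∂μ = r * F - ∑ i ∈ J, B i := by
    rw [hΦ, integral_finsetSum J fun i hij => (hψn i hij).int, Finset.sum_congr rfl hψi, Finset.sum_sub_distrib,
      Finset.sum_const, nsmul_eq_mul]
  have hΦK : ∀ z, Φ z ≤ r * (K * F) := by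
    intro z
    calc Φ z ≤ ∑ i ∈ J, K * F := Finset.sum_le_sum fun i hij => hψK i hij z
      _ = r * (K * F) := by rw [Finset.sum_const, nsmul_eq_mul]
  have hB0 : ∀ i ∈ J, 0 ≤ B i := fun i hij => setIntegral_nonneg (hA i hij) fun z _ => (hφ i hij).n z
  have hBs : 0 ≤ ∑ i ∈ J, B i := Finset.sum_nonneg hB0
  have hΦ2 : ∫ z, Φ z ^ 2 ∂μ ≤ r * (K * F) * (r * F) := by
    have h1 : ∫ z, Φ z ^ 2 ∂μ ≤ ∫ z, r * (K * F) * Φ z ∂μ := by
      have h2 : Integrable (fun z => Φ z ^ 2) μ := by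
        have := (hΦn.mul hΦn).int (ν := μ)
        simpa only [sq] using this
      refine integral_mono h2 (hΦn.int.const_mul _) fun z => ?_
      show Φ z ^ 2 ≤ r * (K * F) * Φ z
      rw [sq]
      exact mul_le_mul_of_nonneg_right (hΦK z) (hΦn.n z)
    rw [integral_const_mul, hΦi] at h1
    refine h1.trans (mul_le_mul_of_nonneg_left (by linarith) (by positivity))
  have hs := hspec Φ hΦn.m hΦn.n hΦn.c
  have hs2 : ∫ z, Φ z * ∫ w in {w | R z w}, Φ w ∂μ ∂μ = ∑ i ∈ J, ∑ j ∈ J, ip80 μ R (ψ i) (ψ j) :=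
    ip80_sum (μ := μ) hR J hψn
  rw [hs2, hΦi] at hs
  have h1 : ∑ i ∈ J, ∑ j ∈ J, ip80 μ R (ψ i) (ψ j) ≤ ∑ i ∈ J, ∑ j ∈ J, ip80 μ R (φ i) (φ j) :=
    Finset.sum_le_sum fun i hij => Finset.sum_le_sum fun j hjj =>
      ip80_mono hR (hψn i hij) (hψn j hjj) (hφ i hij) (hφ j hjj) (hψφ i hij) (hψφ j hjj)
  have h2 : ∑ i ∈ J, ∑ j ∈ J, ip80 μ R (φ i) (φ j) ≤ r * F ^ 2 + ∑ i ∈ J, ∑ j ∈ J.erase i, ip80 μ R (φ i) (φ j) := by
    calc ∑ i ∈ J, ∑ j ∈ J, ip80 μ R (φ i) (φ j) =
        ∑ i ∈ J, (ip80 μ R (φ i) (φ i) + ∑ j ∈ J.erase i, ip80 μ R (φ i) (φ j)) :=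
          Finset.sum_congr rfl fun i hij => (Finset.add_sum_erase J (fun j => ip80 μ R (φ i) (φ j)) hij).symm
      _ = (∑ i ∈ J, ip80 μ R (φ i) (φ i)) + ∑ i ∈ J, ∑ j ∈ J.erase i, ip80 μ R (φ i) (φ j) := Finset.sum_add_distrib
      _ ≤ (∑ i ∈ J, F ^ 2) + ∑ i ∈ J, ∑ j ∈ J.erase i, ip80 μ R (φ i) (φ j) := by
          gcongr with i hij
          have h3 := (ip80_le (μ := μ) hR (hφ i hij) (hφ i hij)).2
          rw [hi i hij] at h3
          rw [sq]
          exact h3
      _ = _ := by rw [Finset.sum_const, nsmul_eq_mul]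
  have h3 : p * ((r * F - ∑ i ∈ J, B i) ^ 2 - ε * (r * (K * F) * (r * F))) ≤
      p * ((r * F - ∑ i ∈ J, B i) ^ 2 - ε * ∫ z, Φ z ^ 2 ∂μ) := by
    refine mul_le_mul_of_nonneg_left ?_ hp
    have := mul_le_mul_of_nonneg_left hΦ2 hε
    linarith
  have h4 : p * r ^ 2 * (1 - ε * K) * F ^ 2 - 2 * p * r * F * (∑ i ∈ J, B i) ≤
      p * ((r * F - ∑ i ∈ J, B i) ^ 2 - ε * (r * (K * F) * (r * F))) := by
    have h5 : p * ((r * F - ∑ i ∈ J, B i) ^ 2 - ε * (r * (K * F) * (r * F))) =
        p * r ^ 2 * (1 - ε * K) * F ^ 2 - 2 * p * r * F * (∑ i ∈ J, B i) + p * (∑ i ∈ J, B i) ^ 2 := by ring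
    have h6 : 0 ≤ p * (∑ i ∈ J, B i) ^ 2 := by positivity
    linarith
  linarith

/-- one coordinate drawn again -/
theorem int_update80 (i : Fin k) {h : (Fin k → X) → ℝ} (hn : Nb80 h) :
    ∫ x, h x ∂(Measure.pi fun _ : Fin k => μ) =
      ∫ x, ∫ z, h (Function.update x i z) ∂μ ∂(Measure.pi fun _ : Fin k => μ) := by
  rw [int_pw (μ := μ) ({i}ᶜ) hn.int]
  refine integral_congr_ae (ae_of_all _ fun x => ?_)
  have h1 : ∫ z, h (Function.update x i z) ∂μ =
      ∫ y : Fin k → X, h (Function.update x i (y i)) ∂(Measure.pi fun _ : Fin k => μ) := by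
    have h2 := integral_comp_eval (μ := fun _ : Fin k => μ) (i := i)
      (f := fun z => h (Function.update x i z)) (hn.m.comp (measurable_update x)).aestronglyMeasurable
    exact h2.symm
  show ∫ y, h (({i}ᶜ : Finset (Fin k)).piecewise x y) ∂(Measure.pi fun _ : Fin k => μ) = ∫ z, h (Function.update x i z) ∂μ
  rw [h1]
  refine integral_congr_ae (ae_of_all _ fun y => ?_)
  show h (({i}ᶜ : Finset (Fin k)).piecewise x y) = h (Function.update x i (y i))
  congr 1
  funext j
  by_cases hj : j = i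
  · subst hj
    simp [Finset.piecewise]
  · simp [Finset.piecewise, hj]

theorem mg_nb80 (hf : Dens μ f) (S : Finset (Fin k)) : Nb80 (mg μ S f) := by
  have h1 := mg_dens hf S
  exact ⟨h1.meas, h1.nonneg, h1.bdd⟩

/-- `hv` as an integral of the inner integrals -/
theorem hv_eq80 (hf : Dens μ f) (K : ℝ) {S : Finset (Fin k)} {i : Fin k} (hi : i ∉ S) :
    Integrable (fun x => ∫ z in {z | K * mg μ S f x < mg μ (insert i S) f (Function.update x i z)},
      mg μ (insert i S) f (Function.update x i z) ∂μ) (Measure.pi fun _ : Fin k => μ) ∧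
    ∫ x, (∫ z in {z | K * mg μ S f x < mg μ (insert i S) f (Function.update x i z)},
      mg μ (insert i S) f (Function.update x i z) ∂μ) ∂(Measure.pi fun _ : Fin k => μ) = hv μ K f S i := by
  set A : Set (Fin k → X) := {x | K * mg μ S f x < mg μ (insert i S) f x} with hA
  have hAm : MeasurableSet A := measurableSet_lt ((mg_meas hf.meas S).const_mul K) (mg_meas hf.meas (insert i S))
  set h : (Fin k → X) → ℝ := A.indicator (mg μ (insert i S) f) with hh
  have hn : Nb80 h := (mg_nb80 hf (insert i S)).ind hAm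
  have hup : ∀ x z, mg μ S f (Function.update x i z) = mg μ S f x := by
    intro x z
    refine mg_congr S f fun j hj => ?_
    rw [Function.update_of_ne]
    rintro rfl
    exact hi hj
  have h1 : ∀ x, (∫ z in {z | K * mg μ S f x < mg μ (insert i S) f (Function.update x i z)},
      mg μ (insert i S) f (Function.update x i z) ∂μ) = ∫ z, h (Function.update x i z) ∂μ := by
    intro x
    have hm : MeasurableSet {z | K * mg μ S f x < mg μ (insert i S) f (Function.update x i z)} :=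
      measurableSet_lt measurable_const ((mg_meas hf.meas (insert i S)).comp (measurable_update x))
    rw [← integral_indicator hm]
    refine integral_congr_ae (ae_of_all _ fun z => ?_)
    show Set.indicator _ _ z = h (Function.update x i z)
    rw [hh]
    by_cases hz : K * mg μ S f x < mg μ (insert i S) f (Function.update x i z)
    · rw [indicator_of_mem (show z ∈ {z | K * mg μ S f x < mg μ (insert i S) f (Function.update x i z)} from hz),
        indicator_of_mem (show Function.update x i z ∈ A by rw [hA, mem_ofPred_eq, hup]; exact hz)]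
    · rw [indicator_of_notMem (show z ∉ {z | K * mg μ S f x < mg μ (insert i S) f (Function.update x i z)} from hz),
        indicator_of_notMem (show Function.update x i z ∉ A by rw [hA, mem_ofPred_eq, hup]; exact hz)]
  simp_rw [h1]
  constructor
  · obtain ⟨C, hC⟩ := hn.c
    have h2 : StronglyMeasurable fun p : (Fin k → X) × X => h (Function.update p.1 i p.2) :=
      (hn.m.comp measurable_update').stronglyMeasurable
    refine int_bdd (h2.integral_prod_right' (ν := μ)).measurable (C := C) fun x => ?_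
    have h3 : 0 ≤ ∫ z, h (Function.update x i z) ∂μ := integral_nonneg fun z => hn.n _
    show |∫ z, h (Function.update x i z) ∂μ| ≤ C
    rw [abs_of_nonneg h3]
    have h4 : Nb80 fun z => h (Function.update x i z) := ⟨hn.m.comp (measurable_update x), fun z => hn.n _, C, fun z => hC _⟩
    calc ∫ z, h (Function.update x i z) ∂μ ≤ ∫ _z, C ∂μ := integral_mono h4.int (integrable_const C) fun z => hC _
      _ = C := by rw [integral_const, probReal_univ, one_smul]
  · rw [← int_update80 i hn]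
    unfold hv
    have h5 : Measurable (A.indicator fun _ => (1 : ℝ)) := measurable_const.indicator hAm
    have h6 : ∀ x, mg μ (insert i S) f x * A.indicator (fun _ => (1 : ℝ)) x = h x := by
      intro x
      rw [hh]
      by_cases hx : x ∈ A
      · rw [indicator_of_mem hx, indicator_of_mem hx, mul_one]
      · rw [indicator_of_notMem hx, indicator_of_notMem hx, mul_zero]
    have h7 : ∀ x, f x * A.indicator (fun _ => (1 : ℝ)) x = A.indicator f x := by
      intro x
      by_cases hx : x ∈ A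
      · rw [indicator_of_mem hx, indicator_of_mem hx, mul_one]
      · rw [indicator_of_notMem hx, indicator_of_notMem hx, mul_zero]
    have h8 := (int_mg hf (insert i S) h5 (fun x x' hx => by
      have e1 : mg μ S f x = mg μ S f x' := mg_congr S f fun j hj => hx j (Finset.mem_insert_of_mem hj)
      have e2 : mg μ (insert i S) f x = mg μ (insert i S) f x' := mg_congr _ f hx
      simp only [indicator, hA, mem_ofPred_eq, e1, e2]) (by simp_rw [h6]; exact hn.int)).2
    simp_rw [h6, h7] at h8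
    rw [integral_indicator hAm] at h8
    rw [← h8]

theorem ps2 (hR : MeasurableSet {p : X × X | R p.1 p.2}) (hf : Dens μ f) {p ε : ℝ} (hp : 0 ≤ p)
    (hε : 0 ≤ ε) (hspec : Spec μ R p ε) {K : ℝ} (hK : 0 < K) (S : Finset (Fin k)) :
    p * ((k : ℝ) - S.card) ^ 2 * (1 - ε * K) -
        2 * p * ((k : ℝ) - S.card) * ∑ i ∈ Sᶜ, hv μ K f S i - ((k : ℝ) - S.card) ≤
      ∑ i ∈ Sᶜ, ∑ j ∈ Sᶜ.erase i, cf μ R f S i j := by
  have hcard : ((Sᶜ.card : ℕ) : ℝ) = (k : ℝ) - S.card := by
    rw [Finset.card_compl, Fintype.card_fin, Nat.cast_sub]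
    have := Finset.card_le_univ S
    rwa [Fintype.card_fin] at this
  rw [← hcard]
  set r : ℝ := ((Sᶜ.card : ℕ) : ℝ) with hr
  have hr0 : 0 ≤ r := Nat.cast_nonneg _
  set F : (Fin k → X) → ℝ := mg μ S f with hF
  set φ : (Fin k → X) → Fin k → X → ℝ := fun x i z => mg μ (insert i S) f (Function.update x i z) with hφ
  set B : Fin k → (Fin k → X) → ℝ := fun i x => ∫ z in {z | K * F x < φ x i z}, φ x i z ∂μ with hB
  set cc : Fin k → Fin k → (Fin k → X) → ℝ := fun i j x => ip80 μ R (φ x i) (φ x j) / F x with hcc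
  have hFd := mg_dens hf S
  have hF0 : ∀ x, 0 ≤ F x := hFd.nonneg
  have hφn : ∀ x i, Nb80 (φ x i) := by
    intro x i
    obtain ⟨C, hC⟩ := (mg_nb80 hf (insert i S)).c
    exact ⟨(mg_meas hf.meas _).comp (measurable_update x), fun z => (mg_nb80 hf (insert i S)).n _, C, fun z => hC _⟩
  have hφi : ∀ x, ∀ i ∈ Sᶜ, ∫ z, φ x i z ∂μ = F x := fun x i hi =>
    (mg_step hf (Finset.mem_compl.1 hi) x).symm
  have hcf : ∀ i j, ∫ x, cc i j x ∂(Measure.pi fun _ : Fin k => μ) = cf μ R f S i j := fun i j => rfl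
  -- integrability
  have hci : ∀ i ∈ Sᶜ, ∀ j ∈ Sᶜ, Integrable (cc i j) (Measure.pi fun _ : Fin k => μ) := by
    intro i hi j hj
    obtain ⟨C, hC⟩ := hFd.bdd
    have hm : Measurable fun x => ip80 μ R (φ x i) (φ x j) := by
      have h1 : StronglyMeasurable fun q : ((Fin k → X) × X) × X =>
          {p : X × X | R p.1 p.2}.indicator (fun _ => (1 : ℝ)) (q.1.2, q.2) * φ q.1.1 j q.2 := by
        refine Measurable.stronglyMeasurable (Measurable.mul ?_ ?_)
        · exact (measurable_const.indicator hR).comp ((measurable_snd.comp measurable_fst).prodMk measurable_snd)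
        · exact (mg_meas hf.meas (insert j S)).comp
            (measurable_update'.comp ((measurable_fst.comp measurable_fst).prodMk measurable_snd))
      have h2 := h1.integral_prod_right' (ν := μ)
      have h3 : (fun q : (Fin k → X) × X => op80 μ R (φ q.1 j) q.2) = fun q : (Fin k → X) × X => ∫ w,
          {p : X × X | R p.1 p.2}.indicator (fun _ => (1 : ℝ)) (q.2, w) * φ q.1 j w ∂μ := by
        funext q
        unfold op80
        rw [← integral_indicator (Rz80 hR q.2)]
        congr 1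
        funext w
        by_cases hw : R q.2 w
        · rw [Set.indicator_of_mem (show w ∈ {w | R q.2 w} from hw),
            Set.indicator_of_mem (show (q.2, w) ∈ {p : X × X | R p.1 p.2} from hw), one_mul]
        · rw [Set.indicator_of_notMem (show w ∉ {w | R q.2 w} from hw),
            Set.indicator_of_notMem (show (q.2, w) ∉ {p : X × X | R p.1 p.2} from hw), zero_mul]
      have h4 : StronglyMeasurable fun q : (Fin k → X) × X => op80 μ R (φ q.1 j) q.2 := by
        rw [h3]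
        exact h2
      have h5 : StronglyMeasurable fun q : (Fin k → X) × X => φ q.1 i q.2 * op80 μ R (φ q.1 j) q.2 :=
        ((mg_meas hf.meas (insert i S)).comp measurable_update').stronglyMeasurable.mul h4
      exact (h5.integral_prod_right' (ν := μ)).measurable
    refine int_bdd (hm.div hFd.meas) (C := C) fun x => ?_
    have h6 := ip80_le (μ := μ) hR (hφn x i) (hφn x j)
    rw [hφi x i hi, hφi x j hj] at h6
    have h7 : 0 ≤ cc i j x := div_nonneg h6.1 (hF0 x)
    show |cc i j x| ≤ C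
    rw [abs_of_nonneg h7]
    refine le_trans ?_ (hC x)
    show ip80 μ R (φ x i) (φ x j) / F x ≤ F x
    exact div_le_of_le_mul₀ (hF0 x) (hF0 x) h6.2
  have hBi : ∀ i ∈ Sᶜ, Integrable (B i) (Measure.pi fun _ : Fin k => μ) ∧
      ∫ x, B i x ∂(Measure.pi fun _ : Fin k => μ) = hv μ K f S i := fun i hi =>
    hv_eq80 hf K (Finset.mem_compl.1 hi)
  have hFi : Integrable F (Measure.pi fun _ : Fin k => μ) := dens_int hFd
  -- the pointwise inequality
  have hpt : ∀ x, p * r ^ 2 * (1 - ε * K) * F x - 2 * p * r * (∑ i ∈ Sᶜ, B i x) - r * F x ≤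
      ∑ i ∈ Sᶜ, ∑ j ∈ Sᶜ.erase i, cc i j x := by
    intro x
    have hB0 : 0 ≤ ∑ i ∈ Sᶜ, B i x := Finset.sum_nonneg fun i _ => integral_nonneg fun z => (hφn x i).n z
    rcases (hF0 x).eq_or_lt with h0 | h0
    · have h1 : ∀ i j, cc i j x = 0 := fun i j => by
        simp only [hcc]
        rw [← h0, div_zero]
      simp_rw [h1]
      rw [← h0]
      simp only [Finset.sum_const_zero, mul_zero, zero_sub, sub_zero]
      have : 0 ≤ 2 * p * r * (∑ i ∈ Sᶜ, B i x) := by positivity
      linarith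
    · have h1 := point80 (μ := μ) hR hp hε hspec hK (hF0 x) Sᶜ (fun i _ => hφn x i) (hφi x)
      have h2 : ∑ i ∈ Sᶜ, ∑ j ∈ Sᶜ.erase i, cc i j x =
          (∑ i ∈ Sᶜ, ∑ j ∈ Sᶜ.erase i, ip80 μ R (φ x i) (φ x j)) / F x := by
        rw [Finset.sum_div]
        refine Finset.sum_congr rfl fun i _ => ?_
        rw [Finset.sum_div]
      rw [h2, le_div_iff₀ h0]
      refine le_trans (le_of_eq ?_) h1
      simp only [hB]
      rw [← hr]
      ring
  have hL : Integrable (fun x => p * r ^ 2 * (1 - ε * K) * F x - 2 * p * r * (∑ i ∈ Sᶜ, B i x) - r * F x)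
      (Measure.pi fun _ : Fin k => μ) :=
    ((hFi.const_mul _).sub ((integrable_finsetSum _ fun i hi => (hBi i hi).1).const_mul _)).sub (hFi.const_mul _)
  have hRi : Integrable (fun x => ∑ i ∈ Sᶜ, ∑ j ∈ Sᶜ.erase i, cc i j x) (Measure.pi fun _ : Fin k => μ) :=
    integrable_finsetSum _ fun i hi => integrable_finsetSum _ fun j hj => hci i hi j (Finset.mem_of_mem_erase hj)
  have hfin := integral_mono hL hRi hpt
  rw [integral_finsetSum _ fun i hi => integrable_finsetSum _ fun j hj => hci i hi j (Finset.mem_of_mem_erase hj)] at hfin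
  have h3 : ∑ i ∈ Sᶜ, ∫ x, ∑ j ∈ Sᶜ.erase i, cc i j x ∂(Measure.pi fun _ : Fin k => μ) =
      ∑ i ∈ Sᶜ, ∑ j ∈ Sᶜ.erase i, cf μ R f S i j := by
    refine Finset.sum_congr rfl fun i hi => ?_
    rw [integral_finsetSum _ fun j hj => hci i hi j (Finset.mem_of_mem_erase hj)]
    rfl
  rw [h3] at hfin
  refine le_trans (le_of_eq ?_) hfin
  have a1 : Integrable (fun x => p * r ^ 2 * (1 - ε * K) * F x) (Measure.pi fun _ : Fin k => μ) := hFi.const_mul _
  have a2 : Integrable (fun x => 2 * p * r * (∑ i ∈ Sᶜ, B i x)) (Measure.pi fun _ : Fin k => μ) :=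
    (integrable_finsetSum _ fun i hi => (hBi i hi).1).const_mul _
  have a3 : Integrable (fun x => r * F x) (Measure.pi fun _ : Fin k => μ) := hFi.const_mul _
  have a12 : Integrable (fun x => p * r ^ 2 * (1 - ε * K) * F x - 2 * p * r * (∑ i ∈ Sᶜ, B i x))
    (Measure.pi fun _ : Fin k => μ) := a1.sub a2
  rw [integral_sub a12 a3, integral_sub a1 a2, integral_const_mul, integral_const_mul, integral_const_mul,
    integral_finsetSum _ fun i hi => (hBi i hi).1, Finset.sum_congr rfl fun i hi => (hBi i hi).2]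
  have e1 : ∫ x, F x ∂(Measure.pi fun _ : Fin k => μ) = 1 := hFd.int
  rw [e1, mul_one, mul_one]

end Pool.Agent.Helper63.SM
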